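import Pool.Agent.H91.TJ.Stm

/-!
# Crew TJ: part CHO
-/

set_option autoImplicit false

namespace H48.TJ

open Finset
open Pool.Agent.Y516.OJ (Fam wt Wt EE ind Disj nInt nErr Prot tot)
open Pool.Agent.H91.TJ
open Pool.Agent.Y502.OJ (ind_nonneg ind_true ind_false EE_mono EE_one EE_add EE_mul EE_sum
  EE_notDisj Wt_marg Wt_sum Wt_nonneg card_eq_sum)

/-- A protocol of depth `b` is constant on `2 ^ b` rectangles which cover everything. -/
theorem leavesJ {A B R : Type} : ∀ (p : JProt A B R) (b : ℕ), p.depth ≤ b →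
    ∃ (F : Fin (2 ^ b) → A → Prop) (G : Fin (2 ^ b) → B → Prop) (r : Fin (2 ^ b) → R),
      (∀ x y, ∃ l, F l x ∧ G l y) ∧ ∀ l x y, F l x → G l y → p.run x y = r l := by
  intro p
  induction p with
  | out r =>
    intro b _
    refine ⟨fun _ _ => True, fun _ _ => True, fun _ => r, ?_, ?_⟩
    · intro x y
      exact ⟨⟨0, by positivity⟩, trivial, trivial⟩
    · intro l x y _ _
      rfl
  | left f p q ihp ihq =>
    intro b hb
    obtain ⟨b, rfl⟩ : ∃ b', b = b' + 1 := ⟨b - 1, by unfold JProt.depth at hb; omega⟩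
    unfold JProt.depth at hb
    obtain ⟨F1, G1, r1, h1, h1'⟩ := ihp b (by omega)
    obtain ⟨F2, G2, r2, h2, h2'⟩ := ihq b (by omega)
    have e : Fin (2 ^ (b + 1)) ≃ Fin (2 ^ b) ⊕ Fin (2 ^ b) :=
      (finCongr (by ring)).trans finSumFinEquiv.symm
    refine ⟨fun l x => Sum.elim (fun i => f x = true ∧ F1 i x) (fun i => f x = false ∧ F2 i x) (e l),
      fun l y => Sum.elim (fun i => G1 i y) (fun i => G2 i y) (e l),
      fun l => Sum.elim r1 r2 (e l), ?_, ?_⟩
    · intro x y
      rcases hf : f x with _ | _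
      · obtain ⟨l, hl⟩ := h2 x y
        refine ⟨e.symm (Sum.inr l), ?_⟩
        simp only [Equiv.apply_symm_apply, Sum.elim_inr]
        exact ⟨⟨hf, hl.1⟩, hl.2⟩
      · obtain ⟨l, hl⟩ := h1 x y
        refine ⟨e.symm (Sum.inl l), ?_⟩
        simp only [Equiv.apply_symm_apply, Sum.elim_inl]
        exact ⟨⟨hf, hl.1⟩, hl.2⟩
    · intro l x y hx hy
      unfold JProt.run
      rcases hl : e l with i | i
      · simp only [hl, Sum.elim_inl] at hx hy ⊢
        rw [if_pos hx.1]
        exact h1' i x y hx.2 hy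
      · simp only [hl, Sum.elim_inr] at hx hy ⊢
        rw [if_neg (by rw [hx.1]; simp)]
        exact h2' i x y hx.2 hy
  | right g p q ihp ihq =>
    intro b hb
    obtain ⟨b, rfl⟩ : ∃ b', b = b' + 1 := ⟨b - 1, by unfold JProt.depth at hb; omega⟩
    unfold JProt.depth at hb
    obtain ⟨F1, G1, r1, h1, h1'⟩ := ihp b (by omega)
    obtain ⟨F2, G2, r2, h2, h2'⟩ := ihq b (by omega)
    have e : Fin (2 ^ (b + 1)) ≃ Fin (2 ^ b) ⊕ Fin (2 ^ b) :=
      (finCongr (by ring)).trans finSumFinEquiv.symm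
    refine ⟨fun l x => Sum.elim (fun i => F1 i x) (fun i => F2 i x) (e l),
      fun l y => Sum.elim (fun i => g y = true ∧ G1 i y) (fun i => g y = false ∧ G2 i y) (e l),
      fun l => Sum.elim r1 r2 (e l), ?_, ?_⟩
    · intro x y
      rcases hf : g y with _ | _
      · obtain ⟨l, hl⟩ := h2 x y
        refine ⟨e.symm (Sum.inr l), ?_⟩
        simp only [Equiv.apply_symm_apply, Sum.elim_inr]
        exact ⟨hl.1, ⟨hf, hl.2⟩⟩
      · obtain ⟨l, hl⟩ := h1 x y
        refine ⟨e.symm (Sum.inl l), ?_⟩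
        simp only [Equiv.apply_symm_apply, Sum.elim_inl]
        exact ⟨hl.1, ⟨hf, hl.2⟩⟩
    · intro l x y hx hy
      unfold JProt.run
      rcases hl : e l with i | i
      · simp only [hl, Sum.elim_inl] at hx hy ⊢
        rw [if_pos hy.1]
        exact h1' i x y hx hy.2
      · simp only [hl, Sum.elim_inr] at hx hy ⊢
        rw [if_neg (by rw [hy.1]; simp)]
        exact h2' i x y hx hy.2

theorem tot_cast {u k : ℕ} (X : Fam u k) : (tot X : ℝ) = ∑ e, ∑ i, ind (X e i = true) := by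
  unfold tot
  push_cast
  refine sum_congr rfl fun e _ => sum_congr rfl fun i _ => ?_
  unfold ind
  split_ifs <;> rfl

theorem EE_left (α : ℝ) {u k : ℕ} (f : Fam u k → ℝ) :
    EE α (fun X _ => f X) = ∑ X, Wt α X * f X := by
  unfold EE
  refine sum_congr rfl fun X _ => ?_
  have h : ∀ Y : Fam u k, Wt α X * Wt α Y * f X = (Wt α X * f X) * Wt α Y := fun Y => by ring
  simp_rw [h, ← Finset.mul_sum, Wt_sum, mul_one]

theorem EE_right (α : ℝ) {u k : ℕ} (f : Fam u k → ℝ) :
    EE α (fun _ Y => f Y) = ∑ Y, Wt α Y * f Y := by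
  unfold EE
  rw [sum_comm]
  refine sum_congr rfl fun Y _ => ?_
  have h : ∀ X : Fam u k, Wt α X * Wt α Y * f Y = Wt α X * (Wt α Y * f Y) := fun X => by ring
  simp_rw [h, ← Finset.sum_mul, Wt_sum, one_mul]

theorem sum_tot (α : ℝ) (u k : ℕ) : ∑ X : Fam u k, Wt α X * (tot X : ℝ) = u * k * α := by
  simp_rw [tot_cast, Finset.mul_sum]
  rw [sum_comm]
  have h : ∀ e : Fin u, ∑ X : Fam u k, ∑ i : Fin k, Wt α X * ind (X e i = true) = k * α := by
    intro e
    rw [sum_comm]
    simp_rw [Wt_marg]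
    simp
  simp_rw [h]
  simp
  ring

/-- the good event -/
def Good {u k : ℕ} (n : ℕ) (X Y : Fam u k) : Prop :=
  tot X ≤ n ∧ tot Y ≤ n ∧ 2 * nInt univ X Y ≤ k ^ 2

theorem good_prob (u k n M : ℕ) (hM : 2 ≤ M) (hu : 768 * u ≤ M ^ 2) (hkM : k * M ≤ n)
    (hk : 1 ≤ k) : 1 / 2 ≤ EE (1 / (M : ℝ)) (fun X Y : Fam u k => ind (Good n X Y)) := by
  have hM0 : (2 : ℝ) ≤ M := by exact_mod_cast hM
  have hMpos : (0 : ℝ) < M := by linarith
  have ha0 : (0 : ℝ) ≤ 1 / (M : ℝ) := by positivity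
  have ha1 : 1 / (M : ℝ) ≤ 1 := by
    rw [div_le_one hMpos]
    linarith
  have hk1 : (1 : ℝ) ≤ k := by exact_mod_cast hk
  have hkMR : (k : ℝ) * M ≤ n := by exact_mod_cast hkM
  have hn : (0 : ℝ) < n := by nlinarith
  have huR : 768 * (u : ℝ) ≤ (M : ℝ) ^ 2 := by exact_mod_cast hu
  have htot : (u : ℝ) * k * (1 / (M : ℝ)) ≤ n / 768 := by
    rw [mul_one_div, div_le_div_iff₀ hMpos (by norm_num)]
    nlinarith
  have hint : EE (1 / (M : ℝ)) (fun X Y : Fam u k => (nInt univ X Y : ℝ)) ≤ (k : ℝ) ^ 2 / 768 := by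
    have h1 : (fun (X Y : Fam u k) => (nInt univ X Y : ℝ)) =
        fun X Y => ∑ d ∈ (univ : Finset (Fin k × Fin k)), ind (¬ Disj X Y d) := by
      funext X Y
      unfold nInt
      classical
      exact card_eq_sum univ _
    rw [h1, EE_sum]
    have h2 : (u : ℝ) * (1 / (M : ℝ) * (1 / (M : ℝ))) ≤ 1 / 768 := by
      rw [← mul_assoc, mul_one_div, mul_one_div, div_div, div_le_div_iff₀ (by positivity)
        (by norm_num)]
      nlinarith
    calc ∑ d ∈ (univ : Finset (Fin k × Fin k)),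
          EE (1 / (M : ℝ)) (fun (X Y : Fam u k) => ind (¬ Disj X Y d)) ≤
          ∑ d ∈ (univ : Finset (Fin k × Fin k)), (1 / 768 : ℝ) :=
          Finset.sum_le_sum fun d _ => (EE_notDisj ha0 ha1 d).trans h2
      _ = (k : ℝ) ^ 2 / 768 := by
          rw [Finset.sum_const, Finset.card_univ, Fintype.card_prod, Fintype.card_fin,
            nsmul_eq_mul]
          push_cast
          ring
  have hk2 : (0 : ℝ) < (k : ℝ) ^ 2 := by positivity
  have hmain : EE (1 / (M : ℝ)) (fun (_ _ : Fam u k) => (1 : ℝ)) ≤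
      EE (1 / (M : ℝ)) (fun X Y : Fam u k => ind (Good n X Y) +
        ((1 / (n : ℝ)) * (tot X : ℝ) + ((1 / (n : ℝ)) * (tot Y : ℝ) +
          (2 / (k : ℝ) ^ 2) * (nInt univ X Y : ℝ)))) := by
    refine EE_mono ha0 ha1 fun X Y => ?_
    have b0 := ind_nonneg (Good n X Y)
    have b1 : 0 ≤ (1 / (n : ℝ)) * (tot X : ℝ) := by positivity
    have b2 : 0 ≤ (1 / (n : ℝ)) * (tot Y : ℝ) := by positivity
    have b3 : 0 ≤ (2 / (k : ℝ) ^ 2) * (nInt univ X Y : ℝ) := by positivity
    by_cases h1 : tot X ≤ n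
    · by_cases h2 : tot Y ≤ n
      · by_cases h3 : 2 * nInt univ X Y ≤ k ^ 2
        · rw [ind_true (show Good n X Y from ⟨h1, h2, h3⟩)] at *
          linarith
        · have h4 : (k : ℝ) ^ 2 < 2 * (nInt univ X Y : ℝ) := by exact_mod_cast not_le.1 h3
          have : 1 ≤ (2 / (k : ℝ) ^ 2) * (nInt univ X Y : ℝ) := by
            rw [div_mul_eq_mul_div, le_div_iff₀ hk2]
            linarith
          linarith
      · have h4 : (n : ℝ) < (tot Y : ℝ) := by exact_mod_cast not_le.1 h2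
        have : 1 ≤ (1 / (n : ℝ)) * (tot Y : ℝ) := by
          rw [div_mul_eq_mul_div, le_div_iff₀ hn]
          linarith
        linarith
    · have h4 : (n : ℝ) < (tot X : ℝ) := by exact_mod_cast not_le.1 h1
      have : 1 ≤ (1 / (n : ℝ)) * (tot X : ℝ) := by
        rw [div_mul_eq_mul_div, le_div_iff₀ hn]
        linarith
      linarith
  rw [EE_one, EE_add, EE_add, EE_add, EE_mul, EE_mul, EE_mul, EE_left, EE_right, sum_tot] at hmain
  have c1 : (1 / (n : ℝ)) * ((u : ℝ) * k * (1 / (M : ℝ))) ≤ 1 / 768 := by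
    rw [div_mul_eq_mul_div, one_mul, div_le_iff₀ hn]
    linarith
  have c2 : (2 / (k : ℝ) ^ 2) * EE (1 / (M : ℝ)) (fun X Y : Fam u k => (nInt univ X Y : ℝ)) ≤
      2 / 768 := by
    rw [div_mul_eq_mul_div, div_le_iff₀ hk2]
    linarith
  linarith

open Classical in
theorem t_CHO : S_CHO := by
  intro u k m b l s w n M qu hm hM hu hkM hkl hms hq
  have hk : 1 ≤ k := by
    by_contra h
    have : k = 0 := by omega
    subst this
    simp at hms
  choose LF LG lr hcov hconst using fun d => leavesJ (qu d) b (hq d).1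
  -- the index set
  let ι := (Fin m → Fin k × Fin k) × (Fin m → Fin (2 ^ b))
  let Gd : Finset ι := univ.filter fun i => Function.Injective i.1 ∧
    ∃ a : Fin s, ∀ t, (lr (i.1 t) (i.2 t)).1 = a
  let FF : ι → Fam u k → Prop := fun i X => tot X ≤ n ∧ ∀ t, LF (i.1 t) (i.2 t) X
  let GG : ι → Fam u k → Prop := fun i Y => tot Y ≤ n ∧ ∀ t, LG (i.1 t) (i.2 t) Y
  let DD : ι → Finset (Fin k × Fin k) := fun i => univ.image i.1
  have hM0 : (2 : ℝ) ≤ M := by exact_mod_cast hM
  have hMpos : (0 : ℝ) < M := by linarith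
  have ha0 : (0 : ℝ) ≤ 1 / (M : ℝ) := by positivity
  have ha1 : 1 / (M : ℝ) ≤ 1 := by
    rw [div_le_one hMpos]
    linarith
  -- every good point is covered
  have hcover : ∀ X Y : Fam u k, Good n X Y →
      ∃ i ∈ Gd, FF i X ∧ GG i Y ∧ ∀ d ∈ DD i, Disj X Y d := by
    rintro X Y ⟨hX, hY, hI⟩
    set Dj : Finset (Fin k × Fin k) := univ.filter fun d => Disj X Y d with hDj
    have hcard : Dj.card + nInt univ X Y = k ^ 2 := by
      have h1 := Finset.card_filter_add_card_filter_not (s := (univ : Finset (Fin k × Fin k)))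
        (fun d => Disj X Y d)
      rw [Finset.card_univ, Fintype.card_prod, Fintype.card_fin] at h1
      rw [pow_two, ← h1, hDj]
      unfold nInt
      congr 1
    have hbig : (univ : Finset (Fin s)).card * m < Dj.card := by
      rw [Finset.card_univ, Fintype.card_fin]
      nlinarith
    obtain ⟨a, -, ha⟩ := Finset.exists_lt_card_fiber_of_mul_lt_card_of_maps_to
      (f := fun d => ((qu d).run X Y).1) (fun d _ => Finset.mem_univ _) hbig
    obtain ⟨D, hDs, hDc⟩ := Finset.exists_subset_card_eq ha.le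
    let e : D ≃ Fin m := D.equivFinOfCardEq hDc
    have hmem : ∀ t, ((e.symm t : D) : Fin k × Fin k) ∈ D := fun t => (e.symm t).2
    have hmem2 : ∀ t, Disj X Y (e.symm t : D) ∧ ((qu (e.symm t : D)).run X Y).1 = a := by
      intro t
      have := hDs (hmem t)
      rw [Finset.mem_filter, hDj, Finset.mem_filter] at this
      exact ⟨this.1.2, this.2⟩
    choose lam hlam using fun t => hcov (e.symm t : D) X Y
    refine ⟨(fun t => (e.symm t : D), lam), ?_, ?_, ?_, ?_⟩
    · rw [Finset.mem_filter]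
      refine ⟨Finset.mem_univ _, ?_, a, ?_⟩
      · intro t t' h
        exact e.symm.injective (Subtype.ext h)
      · intro t
        have h1 := hconst (e.symm t : D) (lam t) X Y (hlam t).1 (hlam t).2
        show (lr (e.symm t : D) (lam t)).1 = a
        rw [← h1]
        exact (hmem2 t).2
    · exact ⟨hX, fun t => (hlam t).1⟩
    · exact ⟨hY, fun t => (hlam t).2⟩
    · intro d hd
      obtain ⟨t, -, rfl⟩ := Finset.mem_image.1 hd
      exact (hmem2 t).1
  have hsum : 1 / 2 ≤ ∑ i ∈ Gd, xx (1 / (M : ℝ)) (DD i) (FF i) (GG i) := by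
    refine (good_prob u k n M hM hu hkM hk).trans ?_
    unfold xx
    rw [← EE_sum]
    refine EE_mono ha0 ha1 fun X Y => ?_
    have hnn : ∀ i ∈ Gd, 0 ≤ ind (FF i X) * ind (GG i Y) * ind (∀ d ∈ DD i, Disj X Y d) :=
      fun i _ => mul_nonneg (mul_nonneg (ind_nonneg _) (ind_nonneg _)) (ind_nonneg _)
    by_cases h : Good n X Y
    · obtain ⟨i, hi, h1, h2, h3⟩ := hcover X Y h
      rw [ind_true h]
      have h4 : ind (FF i X) * ind (GG i Y) * ind (∀ d ∈ DD i, Disj X Y d) = 1 := by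
        rw [ind_true h1, ind_true h2, ind_true h3]
        norm_num
      rw [← h4]
      exact Finset.single_le_sum hnn hi
    · rw [ind_false h]
      exact Finset.sum_nonneg hnn
  have hcardι : (Gd.card : ℝ) ≤ 2 ^ (m * (l + b)) := by
    have h1 : Gd.card ≤ Fintype.card ι := by
      rw [← Finset.card_univ]
      exact Finset.card_le_card (Finset.filter_subset _ _)
    have h2 : Fintype.card ι ≤ 2 ^ (m * (l + b)) := by
      show Fintype.card ((Fin m → Fin k × Fin k) × (Fin m → Fin (2 ^ b))) ≤ _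
      rw [Fintype.card_prod, Fintype.card_fun, Fintype.card_fun, Fintype.card_prod,
        Fintype.card_fin, Fintype.card_fin, Fintype.card_fin]
      calc (k * k) ^ m * (2 ^ b) ^ m ≤ (2 ^ l) ^ m * (2 ^ b) ^ m := by
            apply Nat.mul_le_mul_right
            apply Nat.pow_le_pow_left
            rw [← pow_two]
            exact hkl
        _ = 2 ^ (m * (l + b)) := by
            rw [← pow_mul, ← pow_mul, ← pow_add]
            congr 1
            ring
    exact_mod_cast h1.trans h2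
  obtain ⟨i, hi, hxi⟩ : ∃ i ∈ Gd,
      (1 / 2 : ℝ) ^ (m * (l + b) + 1) ≤ xx (1 / (M : ℝ)) (DD i) (FF i) (GG i) := by
    by_contra hcon
    push Not at hcon
    have hne : Gd.Nonempty := by
      by_contra h
      rw [Finset.not_nonempty_iff_eq_empty] at h
      rw [h, Finset.sum_empty] at hsum
      norm_num at hsum
    have h1 := Finset.sum_lt_sum_of_nonempty hne hcon
    rw [Finset.sum_const, nsmul_eq_mul] at h1
    have h2 : (Gd.card : ℝ) * (1 / 2) ^ (m * (l + b) + 1) ≤
        2 ^ (m * (l + b)) * (1 / 2) ^ (m * (l + b) + 1) :=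
      mul_le_mul_of_nonneg_right hcardι (by positivity)
    have h3 : (2 : ℝ) ^ (m * (l + b)) * (1 / 2) ^ (m * (l + b) + 1) = 1 / 2 := by
      rw [pow_succ, ← mul_assoc, ← mul_pow]
      norm_num
    linarith
  obtain ⟨-, hinj, a, ha⟩ := Finset.mem_filter.1 hi
  -- the protocols
  let qq : Fin k × Fin k → Fin (2 ^ w) → Prot (Fam u k) (Fam u k) := fun d =>
    if h : ∃ t, i.1 t = d then (lr (i.1 h.choose) (i.2 h.choose)).2 else fun _ => Prot.out false
  have hqq : ∀ t, qq (i.1 t) = (lr (i.1 t) (i.2 t)).2 := by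
    intro t
    have h : ∃ t', i.1 t' = i.1 t := ⟨t, rfl⟩
    have h1 : qq (i.1 t) = (lr (i.1 h.choose) (i.2 h.choose)).2 := dif_pos h
    have h2 : h.choose = t := hinj h.choose_spec
    rw [h1, h2]
  have hrun : ∀ X Y, FF i X → GG i Y → ∀ d ∈ DD i, (qu d).run X Y = (a, qq d) := by
    intro X Y hX hY d hd
    obtain ⟨t, -, rfl⟩ := Finset.mem_image.1 hd
    rw [hconst (i.1 t) (i.2 t) X Y (hX.2 t) (hY.2 t), hqq t, ← ha t]
  -- a point of the rectangle
  obtain ⟨X0, Y0, hX0, hY0⟩ : ∃ X0 Y0, FF i X0 ∧ GG i Y0 := by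
    by_contra hcon
    push Not at hcon
    have h0 : xx (1 / (M : ℝ)) (DD i) (FF i) (GG i) = 0 := by
      unfold xx EE
      apply Finset.sum_eq_zero
      intro X _
      apply Finset.sum_eq_zero
      intro Y _
      beta_reduce
      by_cases hX : FF i X
      · rw [ind_false (hcon X Y hX)]
        ring
      · rw [ind_false hX]
        ring
    rw [h0] at hxi
    have : (0 : ℝ) < (1 / 2) ^ (m * (l + b) + 1) := by positivity
    linarith
  refine ⟨DD i, a, qq, FF i, GG i, ?_, fun X h => h.1, fun Y h => h.1, hrun, ?_, hxi⟩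
  · show (univ.image i.1).card = m
    rw [Finset.card_image_of_injective _ hinj, Finset.card_univ, Fintype.card_fin]
  · intro d v
    by_cases h : ∃ t, i.1 t = d
    · have hd : d ∈ DD i := by
        obtain ⟨t, rfl⟩ := h
        exact Finset.mem_image_of_mem _ (Finset.mem_univ t)
      have h1 := (hq d).2 X0 Y0 v
      rw [hrun X0 Y0 hX0 hY0 d hd] at h1
      exact h1
    · have h1 : qq d = fun _ => Prot.out false := dif_neg h
      rw [h1]
      exact Nat.zero_le _

end H48.TJ
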