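import Pool.Agent.H91.TJ.Stm
import Pool.Graph.R_seed8.Y516.OJ.All

/-!
# Crew TJ: part UB3
-/

set_option autoImplicit false

namespace H48.TJ

open Finset
open Pool.Agent.Y516.OJ (Fam wt Wt EE ind Disj nInt nErr Prot tot CorrStm LeafStm HolStm)
open Pool.Agent.Y85.OJ (FR FR_iff Hs prod_half sum_pow_card leaf_bound EE_nonneg ind_true ind_false)
open Pool.Agent.H91.TJ

theorem EE_prod (α : ℝ) {u k : ℕ} (F G : Fam u k → Prop) :
    EE α (fun X Y => ind (F X) * ind (G Y)) = mu α F * mu α G := by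
  unfold EE mu
  rw [Finset.sum_mul_sum]
  refine sum_congr rfl fun X _ => sum_congr rfl fun Y _ => ?_
  ring

theorem ub2b (hC : CorrStm) (hL : LeafStm) (u k m b : ℕ) (α ρ : ℝ) (D : Finset (Fin k × Fin k))
    (p : Fin k × Fin k → Prot (Fam u k) (Fam u k)) (A B : Fam u k → Bool)
    (hα : 0 < α) (hα1 : 10 * m * α ≤ 1) (hm : 1 ≤ m) (hD : D.card = m)
    (hp : ∀ d, (p d).depth ≤ b) (hρ0 : 0 ≤ ρ) (hρ1 : ρ ≤ 1)
    (hρ : ∀ n : ℕ, n ≤ m → (1 - α ^ 2 * n / 40) ^ u ≤ ρ ^ n) :
    ∃ P : (D → Fin (2 ^ b)) → ℝ, (∀ R, 0 ≤ P R) ∧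
      ∑ R, P R ≤ EE α (fun X Y => ind (A X = true) * ind (B Y = true)) ∧
      EE α (fun X Y => ind (A X = true) * ind (B Y = true) *
        ind (nErr D p X Y ≤ 0 ∧ 2 * nInt D X Y ≤ m)) ≤
        ((1 + ρ) / 2) ^ ((m : ℝ) / 2) * ∑ R, P R ^ (1 / (1 + 2 * (m : ℝ) * α)) := by
  classical
  choose F G a hF using fun d => hL _ _ (p d) b (hp d)
  have hm' : (1 : ℝ) ≤ m := by exact_mod_cast hm
  have hα2 : α ≤ 1 := by nlinarith
  have nn : ∀ P : Prop, 0 ≤ ind P := Pool.Agent.Y85.OJ.ind_nonneg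
  -- the probabilities of the leafs
  let P : (D → Fin (2 ^ b)) → ℝ := fun R =>
    EE α fun X Y => ind ((FR F D R X && A X) = true) * ind ((FR G D R Y && B Y) = true)
  have hP0 : ∀ R, 0 ≤ P R := fun R => EE_nonneg hα.le hα2 fun X Y =>
    mul_nonneg (nn _) (nn _)
  -- the leaf of a pair
  have hex : ∀ X Y : Fam u k, ∃ R : D → Fin (2 ^ b), (FR F D R X = true ∧ FR G D R Y = true) ∧
      ∀ R', FR F D R' X = true → FR G D R' Y = true → R' = R := by
    intro X Y
    choose R hR hR' using fun d : D => (hF d X Y).1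
    refine ⟨R, ⟨(FR_iff F R X).2 fun d => (hR d).1, (FR_iff G R Y).2 fun d => (hR d).2⟩, ?_⟩
    intro R' h1 h2
    funext d
    exact hR' d (R' d) ⟨(FR_iff F R' X).1 h1 d, (FR_iff G R' Y).1 h2 d⟩
  have hPs : ∑ R, P R ≤ EE α (fun X Y => ind (A X = true) * ind (B Y = true)) := by
    have h1 := Pool.Agent.Y85.OJ.EE_sum (univ : Finset (D → Fin (2 ^ b))) α (fun _ => 1)
      fun R X Y => ind ((FR F D R X && A X) = true) * ind ((FR G D R Y && B Y) = true)
    have h2 : ∑ R, P R = EE α fun X Y => ∑ R : D → Fin (2 ^ b),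
        1 * (ind ((FR F D R X && A X) = true) * ind ((FR G D R Y && B Y) = true)) := by
      rw [h1]
      exact sum_congr rfl fun R _ => (one_mul _).symm
    rw [h2]
    refine Pool.Agent.Y85.OJ.EE_mono hα.le hα2 fun X Y => ?_
    obtain ⟨R, ⟨hR1, hR2⟩, hR3⟩ := hex X Y
    rw [sum_eq_single R]
    · rw [hR1, hR2, Bool.true_and, Bool.true_and, one_mul]
    · intro R' _ hne
      by_cases h3 : FR F D R' X = true
      · by_cases h4 : FR G D R' Y = true
        · exact absurd (hR3 R' h3 h4) hne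
        · have h5 : ¬ ((FR G D R' Y && B Y) = true) := by
            intro h6
            rw [Bool.and_eq_true] at h6
            exact h4 h6.1
          rw [ind_false h5, mul_zero, mul_zero]
      · have h5 : ¬ ((FR F D R' X && A X) = true) := by
          intro h6
          rw [Bool.and_eq_true] at h6
          exact h3 h6.1
        rw [ind_false h5, zero_mul, mul_zero]
    · intro h
      exact absurd (mem_univ _) h
  -- the bound at the points
  let cc : (D → Fin (2 ^ b)) → ℝ := fun R =>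
    if m ≤ 2 * (Hs a D R).card then 1 else 0
  have hcc : ∀ R, 0 ≤ cc R := by
    intro R
    show (0 : ℝ) ≤ if m ≤ 2 * (Hs a D R).card then 1 else 0
    split_ifs <;> positivity
  have hprod : ∀ (R : D → Fin (2 ^ b)) (X Y : Fam u k),
      0 ≤ ∏ d ∈ Hs a D R, (1 / 2 + ind (Disj X Y d) / 2) := fun R X Y =>
    prod_nonneg fun d _ => by have := nn (Disj X Y d); linarith
  have hpt : ∀ X Y : Fam u k, ind (A X = true) * ind (B Y = true) *
        ind (nErr D p X Y ≤ 0 ∧ 2 * nInt D X Y ≤ m) ≤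
      ∑ R : D → Fin (2 ^ b), cc R * (ind ((FR F D R X && A X) = true) *
        ind ((FR G D R Y && B Y) = true) * ∏ d ∈ Hs a D R, (1 / 2 + ind (Disj X Y d) / 2)) := by
    intro X Y
    have hnn : ∀ R ∈ (univ : Finset (D → Fin (2 ^ b))), 0 ≤ cc R *
        (ind ((FR F D R X && A X) = true) * ind ((FR G D R Y && B Y) = true) *
        ∏ d ∈ Hs a D R, (1 / 2 + ind (Disj X Y d) / 2)) := fun R _ =>
      mul_nonneg (hcc R) (mul_nonneg (mul_nonneg (nn _) (nn _)) (hprod R X Y))
    by_cases hA : A X = true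
    · by_cases hB : B Y = true
      · by_cases hev : nErr D p X Y ≤ 0 ∧ 2 * nInt D X Y ≤ m
        · obtain ⟨R, ⟨hR1, hR2⟩, -⟩ := hex X Y
          have h3 := leaf_bound (p := p) a hD X Y R (fun d => (hF d X Y).2 (R d)
            ((FR_iff F R X).1 hR1 d) ((FR_iff G R Y).1 hR2 d)) hev.1 hev.2
          refine le_trans ?_ (single_le_sum hnn (mem_univ R))
          have h5 : (FR F D R X && A X) = true := by rw [hR1, hA]; rfl
          have h6 : (FR G D R Y && B Y) = true := by rw [hR2, hB]; rfl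
          rw [ind_true hev, ind_true hA, ind_true hB, ind_true h5, ind_true h6, one_mul, one_mul]
          have h7 : m ≤ 2 * (Hs a D R).card := by have := h3.1; omega
          have h4 : cc R = 1 := if_pos h7
          rw [h4]
          have h8 := h3.2
          rw [pow_zero] at h8
          rw [one_mul, one_mul]
          rw [one_mul] at h8
          exact h8
        · rw [ind_false hev, mul_zero]
          exact sum_nonneg hnn
      · rw [ind_false hB, mul_zero, zero_mul]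
        exact sum_nonneg hnn
    · rw [ind_false hA, zero_mul, zero_mul]
      exact sum_nonneg hnn
  -- the contribution of a leaf
  have hleaf : ∀ R : D → Fin (2 ^ b), EE α (fun X Y => ind ((FR F D R X && A X) = true) *
      ind ((FR G D R Y && B Y) = true) * ∏ d ∈ Hs a D R, (1 / 2 + ind (Disj X Y d) / 2)) ≤
      ((1 + ρ) / 2) ^ (Hs a D R).card * P R ^ (1 / (1 + 2 * (m : ℝ) * α)) := by
    intro R
    have h1 : (fun X Y : Fam u k => ind ((FR F D R X && A X) = true) *
        ind ((FR G D R Y && B Y) = true) * ∏ d ∈ Hs a D R, (1 / 2 + ind (Disj X Y d) / 2)) =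
        fun X Y => ∑ S ∈ (Hs a D R).powerset, (1 / 2 : ℝ) ^ (Hs a D R).card *
          (ind ((FR F D R X && A X) = true) * ind ((FR G D R Y && B Y) = true) *
            ind (∀ d ∈ S.map (Function.Embedding.subtype _), Disj X Y d)) := by
      funext X Y
      rw [prod_half, mul_sum]
      refine sum_congr rfl fun S _ => ?_
      have h2 : (∀ d ∈ S.map (Function.Embedding.subtype _), Disj X Y d) =
          (∀ d ∈ S, Disj X Y (d : Fin k × Fin k)) := by
        apply propext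
        constructor
        · intro h d hd
          exact h _ (mem_map_of_mem _ hd)
        · intro h d hd
          obtain ⟨d', hd', rfl⟩ := mem_map.1 hd
          exact h d' hd'
      rw [h2]
      ring
    rw [h1, Pool.Agent.Y85.OJ.EE_sum]
    have h3 : ∀ S ∈ (Hs a D R).powerset, (1 / 2 : ℝ) ^ (Hs a D R).card *
        EE α (fun X Y => ind ((FR F D R X && A X) = true) * ind ((FR G D R Y && B Y) = true) *
            ind (∀ d ∈ S.map (Function.Embedding.subtype _), Disj X Y d)) ≤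
        (1 / 2 : ℝ) ^ (Hs a D R).card * (ρ ^ S.card * P R ^ (1 / (1 + 2 * (m : ℝ) * α))) := by
      intro S _
      refine mul_le_mul_of_nonneg_left ?_ (by positivity)
      have hS : (S.map (Function.Embedding.subtype _)).card ≤ m := by
        rw [card_map, ← hD, ← Fintype.card_coe D]
        exact card_le_univ S
      have h4 := hC u k m α (S.map (Function.Embedding.subtype _))
        (fun X => FR F D R X && A X) (fun Y => FR G D R Y && B Y) hα hα1 hm hS
      refine h4.trans (mul_le_mul_of_nonneg_right ?_ (Real.rpow_nonneg (hP0 R) _))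
      have h5 := hρ _ hS
      rw [card_map] at h5 ⊢
      exact h5
    refine (sum_le_sum h3).trans (le_of_eq ?_)
    rw [← mul_sum, ← sum_mul, sum_pow_card, ← mul_assoc, ← mul_pow]
    congr 2
    ring
  -- summation
  have hbase0 : 0 < (1 + ρ) / 2 := by linarith
  have hbase1 : (1 + ρ) / 2 ≤ 1 := by linarith
  have hR : ∀ R : D → Fin (2 ^ b), cc R * EE α (fun X Y => ind ((FR F D R X && A X) = true) *
      ind ((FR G D R Y && B Y) = true) * ∏ d ∈ Hs a D R, (1 / 2 + ind (Disj X Y d) / 2)) ≤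
      ((1 + ρ) / 2) ^ ((m : ℝ) / 2) * P R ^ (1 / (1 + 2 * (m : ℝ) * α)) := by
    intro R
    have hPR : 0 ≤ P R ^ (1 / (1 + 2 * (m : ℝ) * α)) := Real.rpow_nonneg (hP0 R) _
    by_cases hc : m ≤ 2 * (Hs a D R).card
    · have h4 : cc R = 1 := if_pos hc
      rw [h4, one_mul]
      refine (hleaf R).trans ?_
      refine mul_le_mul_of_nonneg_right ?_ hPR
      rw [← Real.rpow_natCast]
      refine Real.rpow_le_rpow_of_exponent_ge hbase0 hbase1 ?_
      have h5 : (m : ℝ) ≤ 2 * (Hs a D R).card := by exact_mod_cast hc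
      linarith
    · have h4 : cc R = 0 := if_neg hc
      rw [h4, zero_mul]
      exact mul_nonneg (Real.rpow_nonneg hbase0.le _) hPR
  refine ⟨P, hP0, hPs, ?_⟩
  calc EE α (fun X Y => ind (A X = true) * ind (B Y = true) *
        ind (nErr D p X Y ≤ 0 ∧ 2 * nInt D X Y ≤ m))
      ≤ EE α (fun X Y => ∑ R : D → Fin (2 ^ b), cc R * (ind ((FR F D R X && A X) = true) *
          ind ((FR G D R Y && B Y) = true) * ∏ d ∈ Hs a D R, (1 / 2 + ind (Disj X Y d) / 2))) :=
        Pool.Agent.Y85.OJ.EE_mono hα.le hα2 hpt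
    _ = ∑ R : D → Fin (2 ^ b), cc R * EE α (fun X Y => ind ((FR F D R X && A X) = true) *
          ind ((FR G D R Y && B Y) = true) * ∏ d ∈ Hs a D R, (1 / 2 + ind (Disj X Y d) / 2)) :=
        Pool.Agent.Y85.OJ.EE_sum _ α cc _
    _ ≤ ∑ R : D → Fin (2 ^ b), ((1 + ρ) / 2) ^ ((m : ℝ) / 2) *
          P R ^ (1 / (1 + 2 * (m : ℝ) * α)) := sum_le_sum fun R _ => hR R
    _ = ((1 + ρ) / 2) ^ ((m : ℝ) / 2) *
          ∑ R : D → Fin (2 ^ b), P R ^ (1 / (1 + 2 * (m : ℝ) * α)) := by rw [mul_sum]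

theorem ub3 (hC : CorrStm) (hL : LeafStm) (hH : HolStm) : S_UB3 := by
  classical
  intro u k m b α ρ D p F G hα hα1 hm hD hp hρ0 hρ1 hρ hpos
  obtain ⟨P, hP0, hPs, hbd⟩ := ub2b hC hL u k m b α ρ D p (fun X => decide (F X))
    (fun Y => decide (G Y)) hα hα1 hm hD hp hρ0 hρ1 hρ
  simp only [decide_eq_true_eq] at hPs hbd
  rw [EE_prod] at hPs
  have hm' : (1 : ℝ) ≤ m := by exact_mod_cast hm
  set δ := 2 * (m : ℝ) * α with hδ
  have hδ0 : 0 < δ := by positivity
  set μ := mu α F * mu α G with hμ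
  have hbase0 : 0 < (1 + ρ) / 2 := by linarith
  have h1 := hH (D → Fin (2 ^ b)) (fun R => P R / μ) δ hδ0
    (fun R => div_nonneg (hP0 R) hpos.le) (by
      rw [← Finset.sum_div, div_le_one hpos]
      exact hPs)
  have hcard : (Fintype.card (D → Fin (2 ^ b)) : ℝ) = (2 : ℝ) ^ ((b : ℝ) * m) := by
    rw [Fintype.card_fun, Fintype.card_fin, Fintype.card_coe, hD]
    push_cast
    rw [← pow_mul, ← Real.rpow_natCast]
    push_cast
    rfl
  rw [hcard, ← Real.rpow_mul (by norm_num)] at h1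
  have h2 : ∑ R, P R ^ (1 / (1 + δ)) ≤ μ ^ (1 / (1 + δ)) * (2 : ℝ) ^ ((b : ℝ) * m * δ) := by
    have h3 : ∀ R, P R ^ (1 / (1 + δ)) = μ ^ (1 / (1 + δ)) * (P R / μ) ^ (1 / (1 + δ)) := by
      intro R
      rw [← Real.mul_rpow hpos.le (div_nonneg (hP0 R) hpos.le), mul_div_cancel₀ _ hpos.ne']
    rw [Finset.sum_congr rfl fun R _ => h3 R, ← Finset.mul_sum]
    exact mul_le_mul_of_nonneg_left h1 (Real.rpow_nonneg hpos.le _)
  have h4 : (fun X Y : Fam u k => ind (F X) * ind (G Y) *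
      ind (nErr D p X Y = 0 ∧ 2 * nInt D X Y ≤ m)) =
      fun X Y => ind (F X) * ind (G Y) * ind (nErr D p X Y ≤ 0 ∧ 2 * nInt D X Y ≤ m) := by
    funext X Y
    rw [Nat.le_zero]
  rw [h4]
  refine hbd.trans ?_
  calc ((1 + ρ) / 2) ^ ((m : ℝ) / 2) * ∑ R, P R ^ (1 / (1 + δ))
      ≤ ((1 + ρ) / 2) ^ ((m : ℝ) / 2) *
        (μ ^ (1 / (1 + δ)) * (2 : ℝ) ^ ((b : ℝ) * m * δ)) :=
        mul_le_mul_of_nonneg_left h2 (Real.rpow_nonneg hbase0.le _)
    _ = _ := by ring

theorem t_UB3 : S_UB3 :=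
  ub3 Pool.Agent.Y516.OJ.corrupt Pool.Agent.Y606.OJ.Leaf.leaf Pool.Agent.Y606.OJ.Leaf.hol

end H48.TJ
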